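import Mathlib

set_option autoImplicit false

namespace Pool.Agent.Results.MP_c4e2dd_an.NotGD

open scoped Topology ENNReal
open MeasureTheory Complex Filter Set

/-! ### Definitions -/

/-- The point `e^{it}` of the unit circle. -/
noncomputable def e (t : ℝ) : ℂ := exp (t * I)

/-- Normalised Lebesgue measure of the circle, in the angle `t ∈ (0, 2π]`. -/
noncomputable def m : Measure ℝ :=
  ENNReal.ofReal (2 * Real.pi)⁻¹ • volume.restrict (Ioc 0 (2 * Real.pi))

/-- `F` is a bounded analytic function on the unit disc whose radial boundary values are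
`f(t) = lim_{r → 1} F(r e^{it})` for almost all `t`. -/
def IsBdry (F : ℂ → ℂ) (f : ℝ → ℂ) : Prop :=
  DifferentiableOn ℂ F (Metric.ball 0 1) ∧ (∃ C, ∀ z ∈ Metric.ball (0 : ℂ) 1, ‖F z‖ ≤ C) ∧
    ∀ᵐ t ∂m, Tendsto (fun r : ℝ => F (r * e t)) (𝓝[<] 1) (𝓝 (f t))

/-- `H^∞`: boundary values of bounded analytic functions. -/
def Hinf : Set (ℝ → ℂ) := {f | ∃ F, IsBdry F f}

/-- `L^∞` of the circle. -/
def Linf : Set (ℝ → ℂ) := {g | MemLp g ∞ m}

/-- Bounded outer functions. -/
def IsOuter (θ : ℝ → ℂ) : Prop :=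
  ∃ Θ : ℂ → ℂ, IsBdry Θ θ ∧ Integrable (fun t => Real.log ‖θ t‖) m ∧
    ∃ c : ℂ, ‖c‖ = 1 ∧ ∀ z ∈ Metric.ball (0 : ℂ) 1,
      Θ z = c * exp (∫ t, (e t + z) / (e t - z) * (Real.log ‖θ t‖ : ℂ) ∂m)

/-- The algebra `H^∞ + θ L^∞` (functions are identified when equal almost everywhere). -/
def HL (θ : ℝ → ℂ) : Set (ℝ → ℂ) :=
  {f | ∃ h ∈ Hinf, ∃ g ∈ Linf, ∀ᵐ t ∂m, f t = h t + θ t * g t}

/-- Generalized Douglas algebras. -/
def IsGD (X : Set (ℝ → ℂ)) : Prop :=
  ∀ f ∈ X, eLpNorm f ∞ m < 1 → (fun t => 1 / (1 - f t)) ∈ X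

/-! ### The measure `m` and Cauchy's formula -/

lemma pi2 : (0 : ℝ) < 2 * Real.pi := by positivity

lemma e_eq (t : ℝ) : e t = circleMap 0 1 t := by simp [e, circleMap]

lemma norm_e (t : ℝ) : ‖e t‖ = 1 := by rw [e]; exact norm_exp_ofReal_mul_I t

lemma continuous_e : Continuous e := by unfold e; fun_prop

lemma int_m (f : ℝ → ℂ) : ∫ t, f t ∂m = ((2 * Real.pi)⁻¹ : ℝ) * ∫ t in (0 : ℝ)..2 * Real.pi, f t := by
  rw [m, integral_smul_measure, intervalIntegral.integral_of_le pi2.le,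
    ENNReal.toReal_ofReal (by positivity), real_smul]

instance : IsProbabilityMeasure m := ⟨by
  rw [m, Measure.smul_apply, Measure.restrict_apply MeasurableSet.univ, univ_inter,
    Real.volume_Ioc, sub_zero, smul_eq_mul, ← ENNReal.ofReal_mul (by positivity),
    inv_mul_cancel₀ pi2.ne', ENNReal.ofReal_one]⟩

lemma ae_m {p : ℝ → Prop} (h : ∀ᵐ t ∂(volume.restrict (Ioc 0 (2 * Real.pi))), p t) :
    ∀ᵐ t ∂m, p t := by
  rw [m]
  exact Measure.ae_smul_measure h _

/-- almost all points are in `(0, 2π)` -/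
lemma ae_mem : ∀ᵐ t ∂m, t ∈ Ioo (0 : ℝ) (2 * Real.pi) := by
  apply ae_m
  rw [← restrict_Ioo_eq_restrict_Ioc]
  exact ae_restrict_mem measurableSet_Ioo

/-- Cauchy's formula -/
lemma cauchy {G : ℂ → ℂ} {R : ℝ} (hR : 1 < R) (hG : DifferentiableOn ℂ G (Metric.ball 0 R))
    {z : ℂ} (hz : z ∈ Metric.ball (0 : ℂ) 1) :
    ∫ t, G (e t) * (e t / (e t - z)) ∂m = G z := by
  have h1 : DifferentiableOn ℂ G (Metric.closedBall 0 1) :=
    hG.mono (Metric.closedBall_subset_ball hR)
  have h2 := h1.circleIntegral_sub_inv_smul hz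
  rw [circleIntegral] at h2
  simp only [deriv_circleMap, ← e_eq] at h2
  rw [int_m]
  have h3 : ∫ t in (0 : ℝ)..2 * Real.pi, (e t * I) • (e t - z)⁻¹ • G (e t) =
      I * ∫ t in (0 : ℝ)..2 * Real.pi, G (e t) * (e t / (e t - z)) := by
    rw [← intervalIntegral.integral_const_mul]
    congr 1
    funext t
    simp only [smul_eq_mul, div_eq_mul_inv]
    ring
  rw [h3] at h2
  simp only [smul_eq_mul] at h2
  have h4 : ∫ t in (0 : ℝ)..2 * Real.pi, G (e t) * (e t / (e t - z)) = 2 * Real.pi * G z := by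
    have : I * ∫ t in (0 : ℝ)..2 * Real.pi, G (e t) * (e t / (e t - z)) =
      I * (2 * Real.pi * G z) := by rw [h2]; ring
    exact mul_left_cancel₀ I_ne_zero this
  rw [h4]
  push_cast
  have : (Real.pi : ℂ) ≠ 0 := by exact_mod_cast Real.pi_ne_zero
  field_simp

lemma scaled_diff {G : ℂ → ℂ} (hG : DifferentiableOn ℂ G (Metric.ball 0 1)) {r : ℝ} (h0 : 0 < r) :
    DifferentiableOn ℂ (fun z => G (r * z)) (Metric.ball 0 r⁻¹) := by
  apply hG.comp (by fun_prop)
  intro z hz
  rw [mem_ball_zero_iff] at hz ⊢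
  rw [norm_mul, norm_real, Real.norm_of_nonneg h0.le]
  calc r * ‖z‖ < r * r⁻¹ := by gcongr
    _ = 1 := mul_inv_cancel₀ h0.ne'

lemma sub_ne {z : ℂ} (hz : z ∈ Metric.ball (0 : ℂ) 1) (t : ℝ) : e t - z ≠ 0 := by
  intro h
  rw [mem_ball_zero_iff] at hz
  have : e t = z := sub_eq_zero.mp h
  rw [← this, norm_e] at hz
  exact lt_irrefl _ hz

/-- Passage to the boundary under a dominating function. -/
lemma tendsto_bdry {G : ℂ → ℂ} {g : ℝ → ℂ} {β : ℝ → ℝ} {κ : ℝ → ℂ}
    (hG : DifferentiableOn ℂ G (Metric.ball 0 1))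
    (hlim : ∀ᵐ t ∂m, Tendsto (fun r : ℝ => G (r * e t)) (𝓝[<] 1) (𝓝 (g t)))
    (hβ : Integrable β m) (hdom : ∀ r ∈ Ioo (0 : ℝ) 1, ∀ᵐ t ∂m, ‖G (r * e t)‖ ≤ β t)
    (hκ : Continuous κ) :
    Tendsto (fun r : ℝ => ∫ t, G (r * e t) * κ t ∂m) (𝓝[<] 1) (𝓝 (∫ t, g t * κ t ∂m)) := by
  have hev : ∀ᶠ r : ℝ in 𝓝[<] 1, r ∈ Ioo (0 : ℝ) 1 := Ioo_mem_nhdsLT one_pos
  obtain ⟨K, hK⟩ : ∃ K, ∀ t ∈ Icc (0 : ℝ) (2 * Real.pi), ‖κ t‖ ≤ K :=
    isCompact_Icc.exists_bound_of_continuousOn hκ.continuousOn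
  apply tendsto_integral_filter_of_dominated_convergence (fun t => β t * K)
  · filter_upwards [hev] with r hr
    have hc : Continuous fun t => G (r * e t) := by
      have h1 : ContinuousOn G (Metric.ball 0 1) := hG.continuousOn
      apply h1.comp_continuous (continuous_const.mul continuous_e)
      intro t
      change (r : ℂ) * e t ∈ _
      rw [mem_ball_zero_iff, norm_mul, norm_e, norm_real, mul_one, Real.norm_of_nonneg hr.1.le]
      exact hr.2
    exact (hc.mul hκ).aestronglyMeasurable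
  · filter_upwards [hev] with r hr
    filter_upwards [hdom r hr, ae_mem] with t h1 h2
    rw [norm_mul]
    have h3 := hK t (Ioo_subset_Icc_self h2)
    exact mul_le_mul h1 h3 (norm_nonneg _) ((norm_nonneg _).trans h1)
  · exact hβ.mul_const K
  · filter_upwards [hlim] with t ht
    exact ht.mul_const _

/-- Cauchy's formula for the boundary values. -/
lemma cauchy_bdry {G : ℂ → ℂ} {g : ℝ → ℂ} {β : ℝ → ℝ}
    (hG : DifferentiableOn ℂ G (Metric.ball 0 1))
    (hlim : ∀ᵐ t ∂m, Tendsto (fun r : ℝ => G (r * e t)) (𝓝[<] 1) (𝓝 (g t)))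
    (hβ : Integrable β m) (hdom : ∀ r ∈ Ioo (0 : ℝ) 1, ∀ᵐ t ∂m, ‖G (r * e t)‖ ≤ β t)
    {z : ℂ} (hz : z ∈ Metric.ball (0 : ℂ) 1) :
    ∫ t, g t * (e t / (e t - z)) ∂m = G z := by
  have hκ : Continuous fun t => e t / (e t - z) :=
    continuous_e.div (continuous_e.sub continuous_const) (sub_ne hz)
  have h1 := tendsto_bdry hG hlim hβ hdom hκ
  have hev : ∀ᶠ r : ℝ in 𝓝[<] 1, r ∈ Ioo (0 : ℝ) 1 := Ioo_mem_nhdsLT one_pos
  have h2 : (fun r : ℝ => ∫ t, G (r * e t) * (e t / (e t - z)) ∂m) =ᶠ[𝓝[<] 1]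
      fun r => G (r * z) := by
    filter_upwards [hev] with r hr
    exact cauchy (one_lt_inv_iff₀.mpr ⟨hr.1, hr.2⟩) (scaled_diff hG hr.1) hz
  have h3 : Tendsto (fun r : ℝ => G (r * z)) (𝓝[<] 1) (𝓝 (G z)) := by
    have h4 : ContinuousAt (fun r : ℝ => G (r * z)) 1 := by
      have h5 : ContinuousAt G (((1 : ℝ) : ℂ) * z) := by
        rw [ofReal_one, one_mul]
        exact (hG.differentiableAt (Metric.isOpen_ball.mem_nhds hz)).continuousAt
      exact ContinuousAt.comp (f := fun r : ℝ => (r : ℂ) * z) h5 (by fun_prop)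
    have h5 := h4.tendsto
    simp only [ofReal_one, one_mul] at h5
    exact h5.mono_left nhdsWithin_le_nhds
  exact tendsto_nhds_unique h1 (h3.congr' h2.symm)

/-- The conjugate kernel picks out the value at `0`. -/
lemma conj_bdry {G : ℂ → ℂ} {g : ℝ → ℂ} {β : ℝ → ℝ}
    (hG : DifferentiableOn ℂ G (Metric.ball 0 1))
    (hlim : ∀ᵐ t ∂m, Tendsto (fun r : ℝ => G (r * e t)) (𝓝[<] 1) (𝓝 (g t)))
    (hβ : Integrable β m) (hdom : ∀ r ∈ Ioo (0 : ℝ) 1, ∀ᵐ t ∂m, ‖G (r * e t)‖ ≤ β t)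
    {z : ℂ} (hz : z ∈ Metric.ball (0 : ℂ) 1) :
    ∫ t, g t * (starRingEnd ℂ) ((e t + z) / (e t - z)) ∂m = G 0 := by
  have hκ : Continuous fun t => (starRingEnd ℂ) ((e t + z) / (e t - z)) :=
    continuous_conj.comp
      ((continuous_e.add continuous_const).div (continuous_e.sub continuous_const) (sub_ne hz))
  have h1 := tendsto_bdry hG hlim hβ hdom hκ
  have hev : ∀ᶠ r : ℝ in 𝓝[<] 1, r ∈ Ioo (max 0 ‖z‖) 1 := by
    apply Ioo_mem_nhdsLT
    rw [mem_ball_zero_iff] at hz
    exact max_lt one_pos hz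
  have hz' : ‖z‖ < 1 := by rwa [mem_ball_zero_iff] at hz
  have h2 : (fun r : ℝ => ∫ t, G (r * e t) * (starRingEnd ℂ) ((e t + z) / (e t - z)) ∂m)
      =ᶠ[𝓝[<] 1] fun _ => G 0 := by
    filter_upwards [hev] with r hr
    have hr0 : 0 < r := (le_max_left _ _).trans_lt hr.1
    have hrz : ‖z‖ < r := (le_max_right _ _).trans_lt hr.1
    set w := (starRingEnd ℂ) z with hw
    have hwn : ‖w‖ = ‖z‖ := norm_conj z
    have hne : ∀ ζ ∈ Metric.ball (0 : ℂ) r⁻¹, 1 - w * ζ ≠ 0 := by
      intro ζ hζ h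
      rw [mem_ball_zero_iff] at hζ
      have h3 : w * ζ = 1 := (sub_eq_zero.mp h).symm
      have h4 : ‖w‖ * ‖ζ‖ = 1 := by rw [← norm_mul, h3, norm_one]
      rw [hwn] at h4
      have h5 : ‖z‖ * ‖ζ‖ ≤ r * ‖ζ‖ := by gcongr
      have h6 : r * ‖ζ‖ < r * r⁻¹ := by gcongr
      rw [mul_inv_cancel₀ hr0.ne'] at h6
      linarith
    have hG2 : DifferentiableOn ℂ (fun ζ => G (r * ζ) * ((1 + w * ζ) / (1 - w * ζ)))
        (Metric.ball 0 r⁻¹) := by
      apply (scaled_diff hG hr0).mul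
      exact DifferentiableOn.div (by fun_prop) (by fun_prop) hne
    have h7 := cauchy (one_lt_inv_iff₀.mpr ⟨hr0, hr.2⟩) hG2 (Metric.mem_ball_self one_pos)
    simp only [mul_zero, add_zero, sub_zero, div_one, mul_one] at h7
    rw [← h7]
    congr 1
    funext t
    have he : e t ≠ 0 := by
      intro h; have := norm_e t; rw [h, norm_zero] at this; exact zero_ne_one this
    have hconj : (starRingEnd ℂ) (e t) = (e t)⁻¹ := by
      rw [inv_def, normSq_eq_norm_sq, norm_e]; simp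
    rw [div_self he, mul_one, map_div₀, map_add, map_sub, hconj]
    congr 1
    have hn1 : 1 - w * e t ≠ 0 := hne _ (by
      rw [mem_ball_zero_iff, norm_e]; exact one_lt_inv_iff₀.mpr ⟨hr0, hr.2⟩)
    have hn2 : (e t)⁻¹ - w ≠ 0 := by
      intro h
      apply hn1
      have : (e t)⁻¹ = w := sub_eq_zero.mp h
      rw [← this, inv_mul_cancel₀ he, sub_self]
    rw [← hw, div_eq_div_iff hn2 hn1]
    field_simp
  exact tendsto_nhds_unique h1 (tendsto_const_nhds.congr' h2.symm)

/-- Maximum principle for bounded analytic functions in terms of boundary values. -/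
lemma max_principle {G : ℂ → ℂ} {g : ℝ → ℂ} (hG : IsBdry G g) {C : ℝ} (hC : 0 ≤ C)
    (hg : ∀ᵐ t ∂m, ‖g t‖ ≤ C) {z : ℂ} (hz : z ∈ Metric.ball (0 : ℂ) 1) : ‖G z‖ ≤ C := by
  obtain ⟨hd, ⟨B, hB⟩, hlim⟩ := hG
  by_contra hcon
  push Not at hcon
  have hpos : 0 < ‖G z‖ := hC.trans_lt hcon
  have hz' : ‖z‖ < 1 := by rwa [mem_ball_zero_iff] at hz
  -- Cauchy's formula for the powers
  have hpow : ∀ n : ℕ, ‖G z‖ ^ n ≤ C ^ n * (1 / (1 - ‖z‖)) := by
    intro n
    have h1 := cauchy_bdry (G := fun z => G z ^ n) (g := fun t => g t ^ n) (β := fun _ => B ^ n)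
      (hd.pow n) (by filter_upwards [hlim] with t ht using ht.pow n) (integrable_const _)
      (fun r hr => Filter.Eventually.of_forall fun t => by
        rw [norm_pow]
        have : (r : ℂ) * e t ∈ Metric.ball (0 : ℂ) 1 := by
          rw [mem_ball_zero_iff, norm_mul, norm_e, norm_real, mul_one,
            Real.norm_of_nonneg hr.1.le]
          exact hr.2
        gcongr
        exact hB _ this) hz
    have h2 : ‖∫ t, g t ^ n * (e t / (e t - z)) ∂m‖ ≤ C ^ n * (1 / (1 - ‖z‖)) := by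
      have h3 := norm_integral_le_of_norm_le_const (μ := m) (C := C ^ n * (1 / (1 - ‖z‖)))
        (f := fun t => g t ^ n * (e t / (e t - z))) (by
          filter_upwards [hg] with t ht
          rw [norm_mul, norm_pow, norm_div, norm_e]
          have h4 : 1 - ‖z‖ ≤ ‖e t - z‖ := by
            have := norm_sub_norm_le (e t) z
            rwa [norm_e] at this
          have h5 : 0 < 1 - ‖z‖ := by linarith
          gcongr)
      simpa using h3
    rw [h1, norm_pow] at h2
    exact h2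
  have hq : Tendsto (fun n : ℕ => (C / ‖G z‖) ^ n * (1 / (1 - ‖z‖))) atTop (𝓝 (0 * (1 / (1 - ‖z‖)))) :=
    (tendsto_pow_atTop_nhds_zero_of_lt_one (by positivity)
      ((div_lt_one hpos).mpr hcon)).mul_const _
  rw [zero_mul] at hq
  have hge : ∀ n : ℕ, 1 ≤ (C / ‖G z‖) ^ n * (1 / (1 - ‖z‖)) := by
    intro n
    rw [div_pow, div_mul_eq_mul_div, le_div_iff₀ (by positivity), one_mul]
    exact hpow n
  have := ge_of_tendsto' hq hge
  linarith

/-! ### The function `V` -/

/-- `V(z) = e^{-iπ/4} (1 - z)^{-1/2}` -/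
noncomputable def V (z : ℂ) : ℂ := exp (-(Real.pi / 4) * I - 1 / 2 * log (1 - z))

/-- `h(z) = exp(-i log(1 - z) - π/2)` -/
noncomputable def h (z : ℂ) : ℂ := exp (-I * log (1 - z) - Real.pi / 2)

lemma re_pos {z : ℂ} (hz : z ∈ Metric.ball (0 : ℂ) 1) : 0 < (1 - z).re := by
  rw [mem_ball_zero_iff] at hz
  have := re_le_norm z
  simp
  linarith

lemma re_pos' {z : ℂ} (hz : ‖z‖ ≤ 1) (h1 : z ≠ 1) : 0 < (1 - z).re := by
  simp only [sub_re, one_re, sub_pos]
  rcases lt_or_eq_of_le ((re_le_norm z).trans hz) with h | h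
  · exact h
  · exfalso
    apply h1
    have h2 : normSq z ≤ 1 := by rw [normSq_eq_norm_sq]; nlinarith [norm_nonneg z]
    rw [normSq_apply, h] at h2
    have h3 : z.im = 0 := by nlinarith
    exact Complex.ext (by simp [h]) (by simp [h3])

lemma arg_bounds {w : ℂ} (hw : 0 < w.re) : -(Real.pi / 2) < arg w ∧ arg w < Real.pi / 2 :=
  abs_lt.mp (abs_arg_lt_pi_div_two_iff.mpr (Or.inl hw))

lemma ne_zero_of_re {w : ℂ} (hw : 0 < w.re) : w ≠ 0 := by
  rintro rfl; simp at hw

/-- the square of `V` -/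
lemma V_sq {z : ℂ} (hz : 0 < (1 - z).re) : V z ^ 2 * (1 - z) = -I := by
  have h0 := ne_zero_of_re hz
  have h1 : V z ^ 2 = exp (-(Real.pi / 2) * I - log (1 - z)) := by
    rw [V, ← exp_nat_mul]; congr 1; push_cast; ring
  rw [h1, exp_sub, exp_log h0, div_mul_cancel₀ _ h0]
  have : (-(Real.pi / 2) * I : ℂ) = -(Real.pi / 2 * I) := by ring
  rw [this, exp_neg, exp_pi_div_two_mul_I, inv_I]

lemma norm_V_sq {z : ℂ} (hz : 0 < (1 - z).re) : ‖V z‖ ^ 2 * ‖1 - z‖ = 1 := by
  have := congrArg norm (V_sq hz)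
  rw [norm_mul, norm_pow, norm_neg, norm_I] at this
  exact this

lemma V_quadrant {z : ℂ} (hz : 0 < (1 - z).re) : 0 < (V z).re ∧ (V z).im < 0 := by
  obtain ⟨h1, h2⟩ := arg_bounds hz
  have hre : (V z).re = Real.exp (-(1 / 2) * Real.log ‖1 - z‖) *
      Real.cos (-(Real.pi / 4) - 1 / 2 * arg (1 - z)) := by
    rw [V, exp_re]
    congr 2
    · simp [log_re, log_im]
    · simp [log_re, log_im]
  have him : (V z).im = Real.exp (-(1 / 2) * Real.log ‖1 - z‖) *
      Real.sin (-(Real.pi / 4) - 1 / 2 * arg (1 - z)) := by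
    rw [V, exp_im]
    congr 2
    · simp [log_re, log_im]
    · simp [log_re, log_im]
  rw [hre, him]
  constructor
  · apply mul_pos (Real.exp_pos _)
    apply Real.cos_pos_of_mem_Ioo
    constructor <;> linarith
  · apply mul_neg_of_pos_of_neg (Real.exp_pos _)
    apply Real.sin_neg_of_neg_of_neg_pi_lt <;> linarith [Real.pi_pos]

lemma e_ne_one {t : ℝ} (ht : t ∈ Ioo (0 : ℝ) (2 * Real.pi)) : e t ≠ 1 := by
  intro h
  rw [e, exp_eq_one_iff] at h
  obtain ⟨n, hn⟩ := h
  have h2 : t = n * (2 * Real.pi) := by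
    have h3 : (t : ℂ) * I = ((n * (2 * Real.pi) : ℝ) : ℂ) * I := by rw [hn]; push_cast; ring
    exact_mod_cast mul_right_cancel₀ I_ne_zero h3
  have hp := pi2
  rw [h2] at ht
  have h4 : (0 : ℝ) < n := by
    by_contra hcon
    push Not at hcon
    nlinarith [ht.1]
  have h5 : (n : ℝ) < 1 := by
    by_contra hcon
    push Not at hcon
    nlinarith [ht.2]
  have h6 : (0 : ℤ) < n := by exact_mod_cast h4
  have h7 : n < (1 : ℤ) := by exact_mod_cast h5
  omega

lemma re_pos_e {t : ℝ} (ht : t ∈ Ioo (0 : ℝ) (2 * Real.pi)) : 0 < (1 - e t).re :=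
  re_pos' (norm_e t).le (e_ne_one ht)

lemma diff_V {z : ℂ} (hz : 0 < (1 - z).re) : DifferentiableAt ℂ V z := by
  unfold V
  have h1 : (1 - z) ∈ slitPlane := Or.inl hz
  have h2 : DifferentiableAt ℂ (fun z => log (1 - z)) z :=
    DifferentiableAt.clog (by fun_prop) h1
  fun_prop

lemma diff_h {z : ℂ} (hz : 0 < (1 - z).re) : DifferentiableAt ℂ h z := by
  unfold h
  have h1 : (1 - z) ∈ slitPlane := Or.inl hz
  have h2 : DifferentiableAt ℂ (fun z => log (1 - z)) z :=
    DifferentiableAt.clog (by fun_prop) h1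
  fun_prop

/-- radial limits of functions continuous at the boundary points -/
lemma radial {G : ℂ → ℂ} (hG : ∀ z, 0 < (1 - z).re → ContinuousAt G z) :
    ∀ᵐ t ∂m, Tendsto (fun r : ℝ => G (r * e t)) (𝓝[<] 1) (𝓝 (G (e t))) := by
  filter_upwards [ae_mem] with t ht
  have h1 : ContinuousAt G (((1 : ℝ) : ℂ) * e t) := by
    rw [ofReal_one, one_mul]
    exact hG _ (re_pos_e ht)
  have h2 : ContinuousAt (fun r : ℝ => G (r * e t)) 1 :=
    ContinuousAt.comp (f := fun r : ℝ => (r : ℂ) * e t) h1 (by fun_prop)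
  have h3 := h2.tendsto
  simp only [ofReal_one, one_mul] at h3
  exact h3.mono_left nhdsWithin_le_nhds

/-- the square of the modulus of `V` on the circle -/
lemma norm_V_e {t : ℝ} (ht : t ∈ Ioo (0 : ℝ) (2 * Real.pi)) :
    ‖V (e t)‖ ≤ 2 * (t ^ (-(1 / 2) : ℝ) + (2 * Real.pi - t) ^ (-(1 / 2) : ℝ)) := by
  have h1 := norm_V_sq (re_pos_e ht)
  have h2 : ‖1 - e t‖ = 2 * Real.sin (t / 2) := by
    have h3 := norm_exp_I_mul_ofReal_sub_one t
    rw [norm_sub_rev, e, mul_comm (t : ℂ) I, h3, Real.norm_of_nonneg]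
    have : 0 ≤ Real.sin (t / 2) :=
      Real.sin_nonneg_of_nonneg_of_le_pi (by linarith [ht.1]) (by linarith [ht.2])
    positivity
  have hpi := Real.pi_pos
  have hpi4 := Real.pi_le_four
  have ht1 := ht.1
  have ht2 := ht.2
  set a : ℝ := t ^ (-(1 / 2) : ℝ) with ha
  set b : ℝ := (2 * Real.pi - t) ^ (-(1 / 2) : ℝ) with hb
  have ha0 : 0 < a := Real.rpow_pos_of_pos ht1 _
  have hb0 : 0 < b := Real.rpow_pos_of_pos (by linarith) _
  have ha2 : a ^ 2 * t = 1 := by
    rw [ha, ← Real.rpow_natCast, ← Real.rpow_mul ht1.le]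
    norm_num
    rw [Real.rpow_neg_one]
    exact inv_mul_cancel₀ ht1.ne'
  have hb2 : b ^ 2 * (2 * Real.pi - t) = 1 := by
    rw [hb, ← Real.rpow_natCast, ← Real.rpow_mul (by linarith)]
    norm_num
    rw [Real.rpow_neg_one]
    exact inv_mul_cancel₀ (by linarith : (2 * Real.pi - t) ≠ 0)
  -- lower bound for `‖1 - e t‖`
  have key : 1 ≤ 4 * (a + b) ^ 2 * ‖1 - e t‖ := by
    rw [h2]
    rcases le_total t Real.pi with h | h
    · have h3 := Real.mul_le_sin (x := t / 2) (by linarith) (by linarith)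
      have h4 : t / 4 ≤ Real.sin (t / 2) := by
        refine le_trans ?_ h3
        rw [div_mul_div_comm, div_le_div_iff₀ (by norm_num) (by positivity)]
        nlinarith
      have h5 : a ^ 2 ≤ (a + b) ^ 2 := by nlinarith
      nlinarith [mul_le_mul h5 h4 (by linarith) (by positivity)]
    · have h3 := Real.mul_le_sin (x := Real.pi - t / 2) (by linarith) (by linarith)
      rw [Real.sin_pi_sub] at h3
      have h4 : (2 * Real.pi - t) / 4 ≤ Real.sin (t / 2) := by
        refine le_trans ?_ h3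
        have : Real.pi - t / 2 = (2 * Real.pi - t) / 2 := by ring
        rw [this, div_mul_div_comm, div_le_div_iff₀ (by norm_num) (by positivity)]
        nlinarith
      have h5 : b ^ 2 ≤ (a + b) ^ 2 := by nlinarith
      nlinarith [mul_le_mul h5 h4 (by linarith) (by positivity)]
  have h6 : 0 < ‖1 - e t‖ := norm_pos_iff.mpr (ne_zero_of_re (re_pos_e ht))
  have h7 : ‖V (e t)‖ ^ 2 ≤ (2 * (a + b)) ^ 2 := by
    have : ‖V (e t)‖ ^ 2 * ‖1 - e t‖ ≤ (2 * (a + b)) ^ 2 * ‖1 - e t‖ := by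
      rw [h1]; linarith
    exact le_of_mul_le_mul_right this h6
  exact (abs_le_of_sq_le_sq' h7 (by positivity)).2

lemma meas_V : Measurable V := by
  unfold V
  have : Measurable fun z : ℂ => log (1 - z) := measurable_log.comp (by fun_prop)
  fun_prop

lemma meas_h : Measurable h := by
  unfold h
  have : Measurable fun z : ℂ => log (1 - z) := measurable_log.comp (by fun_prop)
  fun_prop

lemma integrable_V : Integrable (fun t => V (e t)) m := by
  have h1 : IntervalIntegrable (fun t : ℝ => t ^ (-(1 / 2) : ℝ)) volume 0 (2 * Real.pi) :=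
    intervalIntegral.intervalIntegrable_rpow' (by norm_num)
  have h2 : IntervalIntegrable (fun t : ℝ => (2 * Real.pi - t) ^ (-(1 / 2) : ℝ)) volume
      0 (2 * Real.pi) := by
    have := (intervalIntegral.intervalIntegrable_rpow' (a := 2 * Real.pi) (b := 0)
      (r := (-(1 / 2) : ℝ)) (by norm_num)).comp_sub_left (2 * Real.pi)
    simpa using this
  have h3 : Integrable (fun t : ℝ => 2 * (t ^ (-(1 / 2) : ℝ) +
      (2 * Real.pi - t) ^ (-(1 / 2) : ℝ))) m := by
    have h4 := ((h1.add h2).const_mul 2).1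
    rw [m]
    exact Integrable.smul_measure h4 ENNReal.ofReal_ne_top
  apply h3.mono' (meas_V.comp continuous_e.measurable).aestronglyMeasurable
  filter_upwards [ae_mem] with t ht
  exact norm_V_e ht

/-- domination of the radial dilates -/
lemma dom_V : ∀ r ∈ Ioo (0 : ℝ) 1, ∀ᵐ t ∂m, ‖V (r * e t)‖ ≤ 2 * ‖V (e t)‖ := by
  intro r hr
  filter_upwards [ae_mem] with t ht
  have hball : (r : ℂ) * e t ∈ Metric.ball (0 : ℂ) 1 := by
    rw [mem_ball_zero_iff, norm_mul, norm_e, norm_real, mul_one, Real.norm_of_nonneg hr.1.le]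
    exact hr.2
  have h1 := norm_V_sq (re_pos hball)
  have h2 := norm_V_sq (re_pos_e ht)
  have h3 : ‖1 - e t‖ ≤ 2 * ‖1 - r * e t‖ := by
    have h4 : ‖1 - e t‖ ≤ ‖1 - r * e t‖ + ‖(r - 1 : ℂ) * e t‖ := by
      have : 1 - e t = (1 - r * e t) + (r - 1 : ℂ) * e t := by ring
      rw [this]; exact norm_add_le _ _
    have h5 : ‖(r - 1 : ℂ) * e t‖ = 1 - r := by
      rw [norm_mul, norm_e, mul_one]
      have : (r - 1 : ℂ) = ((r - 1 : ℝ) : ℂ) := by push_cast; rfl
      rw [this, norm_real, Real.norm_of_nonpos (by linarith [hr.2])]; ring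
    have h6 : 1 - r ≤ ‖1 - r * e t‖ := by
      have := norm_sub_norm_le (1 : ℂ) (r * e t)
      rw [norm_one, norm_mul, norm_e, norm_real, mul_one, Real.norm_of_nonneg hr.1.le] at this
      exact this
    linarith
  have h7 : 0 < ‖1 - r * e t‖ := norm_pos_iff.mpr (ne_zero_of_re (re_pos hball))
  have h8 : ‖V (r * e t)‖ ^ 2 ≤ (2 * ‖V (e t)‖) ^ 2 := by
    have : ‖V (r * e t)‖ ^ 2 * ‖1 - r * e t‖ ≤ (2 * ‖V (e t)‖) ^ 2 * ‖1 - r * e t‖ := by
      rw [h1]
      have h9 := mul_le_mul_of_nonneg_left h3 (sq_nonneg ‖V (e t)‖)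
      nlinarith
    exact le_of_mul_le_mul_right this h7
  exact (abs_le_of_sq_le_sq' h8 (by positivity)).2

lemma V_cont : ∀ z, 0 < (1 - z).re → ContinuousAt V z := fun _ hz => (diff_V hz).continuousAt

lemma V_diffOn : DifferentiableOn ℂ V (Metric.ball 0 1) := fun _ hz =>
  (diff_V (re_pos hz)).differentiableWithinAt

/-- Herglotz' formula for `V` -/
lemma herglotz {z : ℂ} (hz : z ∈ Metric.ball (0 : ℂ) 1) :
    ∫ t, (e t + z) / (e t - z) * ((V (e t)).re : ℂ) ∂m = V z - (V 0).im * I := by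
  have hβ : Integrable (fun t => 2 * ‖V (e t)‖) m := integrable_V.norm.const_mul 2
  have c1 := cauchy_bdry V_diffOn (radial V_cont) hβ dom_V hz
  have c0 := cauchy_bdry V_diffOn (radial V_cont) hβ dom_V (Metric.mem_ball_self one_pos)
  have c2 := conj_bdry V_diffOn (radial V_cont) hβ dom_V hz
  have he : ∀ t, e t ≠ 0 := fun t h => by
    have := norm_e t; rw [h, norm_zero] at this; exact zero_ne_one this
  simp only [sub_zero, div_self (he _), mul_one] at c0
  have hk1 : Continuous fun t => e t / (e t - z) :=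
    continuous_e.div (continuous_e.sub continuous_const) (sub_ne hz)
  have hk2 : Continuous fun t => (e t + z) / (e t - z) :=
    (continuous_e.add continuous_const).div (continuous_e.sub continuous_const) (sub_ne hz)
  have hbd : ∀ κ : ℝ → ℂ, Continuous κ → Integrable (fun t => V (e t) * κ t) m := by
    intro κ hκ
    obtain ⟨K, hK⟩ : ∃ K, ∀ t ∈ Icc (0 : ℝ) (2 * Real.pi), ‖κ t‖ ≤ K :=
      isCompact_Icc.exists_bound_of_continuousOn hκ.continuousOn
    refine integrable_V.mul_bdd (c := K) hκ.aestronglyMeasurable ?_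
    filter_upwards [ae_mem] with t ht
    exact hK t (Ioo_subset_Icc_self ht)
  have i1 := hbd _ hk1
  have i2 := hbd _ (continuous_conj.comp hk2)
  have c3 : ∫ t, V (e t) * ((e t + z) / (e t - z)) ∂m = 2 * V z - V 0 := by
    have : (fun t => V (e t) * ((e t + z) / (e t - z))) =
        fun t => 2 * (V (e t) * (e t / (e t - z))) - V (e t) := by
      funext t
      have := sub_ne hz t
      field_simp
      ring
    rw [this, integral_sub (i1.const_mul 2) integrable_V, integral_const_mul, c1, c0]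
  have c4 : ∫ t, (starRingEnd ℂ) (V (e t)) * ((e t + z) / (e t - z)) ∂m =
      (starRingEnd ℂ) (V 0) := by
    rw [← c2, ← integral_conj]
    congr 1
    funext t
    simp only [map_mul, conj_conj]
  have i3 : Integrable (fun t => (starRingEnd ℂ) (V (e t)) * ((e t + z) / (e t - z))) m := by
    have := (conjCLE.integrable_comp_iff).mpr i2
    refine this.congr (Filter.Eventually.of_forall fun t => ?_)
    simp
  have : (fun t => (e t + z) / (e t - z) * ((V (e t)).re : ℂ)) =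
      fun t => (1 / 2 : ℂ) * (V (e t) * ((e t + z) / (e t - z)) +
        (starRingEnd ℂ) (V (e t)) * ((e t + z) / (e t - z))) := by
    funext t
    rw [re_eq_add_conj]; ring
  rw [this, integral_const_mul, integral_add (hbd _ hk2) i3, c3, c4]
  have h5 : (starRingEnd ℂ) (V 0) = V 0 - 2 * ((V 0).im * I) := by
    apply Complex.ext <;> simp; ring
  rw [h5]; ring

/-! ### The outer function and the counterexample -/

noncomputable def θ (t : ℝ) : ℂ := exp (-V (e t))

lemma bdry_θ : IsBdry (fun z => exp (-V z)) θ := by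
  refine ⟨?_, ⟨1, fun z hz => ?_⟩, ?_⟩
  · intro z hz
    exact ((diff_V (re_pos hz)).neg.cexp).differentiableWithinAt
  · rw [norm_exp, neg_re]
    exact Real.exp_le_one_iff.mpr (by linarith [(V_quadrant (re_pos hz)).1])
  · exact radial fun z hz => (diff_V hz).neg.cexp.continuousAt

lemma log_norm_θ (t : ℝ) : Real.log ‖θ t‖ = -(V (e t)).re := by
  rw [θ, norm_exp, Real.log_exp, neg_re]

lemma isOuter_θ : IsOuter θ := by
  refine ⟨_, bdry_θ, ?_, exp (-((V 0).im * I)), ?_, fun z hz => ?_⟩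
  · simp only [log_norm_θ]
    exact integrable_V.re.neg
  · rw [← neg_mul, ← ofReal_neg]
    exact norm_exp_ofReal_mul_I _
  · simp only [log_norm_θ, ofReal_neg, mul_neg]
    rw [integral_neg, herglotz hz, ← exp_add]
    congr 1
    ring

/-- boundary values of `h` -/
noncomputable def hb (t : ℝ) : ℂ := h (e t)

lemma norm_h (z : ℂ) : ‖h z‖ = Real.exp (arg (1 - z) - Real.pi / 2) := by
  rw [h, norm_exp]
  congr 1
  have : ((Real.pi : ℂ) / 2) = ((Real.pi / 2 : ℝ) : ℂ) := by push_cast; rfl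
  rw [this, sub_re, ofReal_re, neg_mul, neg_re, I_mul_re, log_im, neg_neg]

lemma norm_h_le {z : ℂ} (hz : 0 < (1 - z).re) : ‖h z‖ ≤ 1 := by
  rw [norm_h]
  exact Real.exp_le_one_iff.mpr (by linarith [(arg_bounds hz).2])

lemma bdry_h : IsBdry h hb := by
  refine ⟨?_, ⟨1, fun z hz => norm_h_le (re_pos hz)⟩, ?_⟩
  · intro z hz
    exact (diff_h (re_pos hz)).differentiableWithinAt
  · exact radial fun z hz => (diff_h hz).continuousAt

/-- on the lower half of the circle, `Re V ≤ 1/2` -/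
lemma re_V_le {t : ℝ} (ht : t ∈ Ioo Real.pi (2 * Real.pi)) : (V (e t)).re ≤ 1 / 2 := by
  have ht' : t ∈ Ioo (0 : ℝ) (2 * Real.pi) := ⟨Real.pi_pos.trans ht.1, ht.2⟩
  have h1 := V_sq (re_pos_e ht')
  obtain ⟨ha, hb⟩ := V_quadrant (re_pos_e ht')
  set x := (V (e t)).re with hx
  set y := (V (e t)).im with hy
  set c := (e t).re with hc
  set s := (e t).im with hs
  have hs0 : s < 0 := by
    have : s = Real.sin t := by rw [hs, e, exp_ofReal_mul_I_im]
    rw [this]
    have h2 := Real.sin_pos_of_pos_of_lt_pi (x := t - Real.pi) (by linarith [ht.1])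
      (by linarith [ht.2])
    rw [Real.sin_sub_pi] at h2
    linarith
  have hcs : c ^ 2 + s ^ 2 = 1 := by
    have h2 := norm_e t
    have h3 : normSq (e t) = 1 := by rw [normSq_eq_norm_sq, h2]; norm_num
    rw [normSq_apply] at h3
    linarith [h3]
  have hc1 : c < 1 := by
    have := re_pos_e ht'
    simp only [sub_re, one_re] at this
    linarith
  have e1 := congrArg Complex.re h1
  have e2 := congrArg Complex.im h1
  simp only [pow_two, mul_re, mul_im, sub_re, sub_im, one_re, one_im, neg_re, neg_im, I_re,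
    I_im, ← hx, ← hy, ← hc, ← hs] at e1 e2
  -- `(x² - y²)(1 - c) + 2xy s = 0`, `-(x² - y²) s + 2xy(1 - c) = -1`
  have e3 : (x * x - y * y) * (1 - c) = -(2 * x * y * s) := by linarith
  have e4 : 2 * x * y = -1 / 2 := by
    have h5 : 2 * x * y * ((1 - c) ^ 2 + s ^ 2) = -(1 - c) := by
      have : (x * x - y * y) * s * (1 - c) = -(2 * x * y * s) * s := by
        rw [← e3]; ring
      nlinarith
    have h6 : (1 - c) ^ 2 + s ^ 2 = 2 * (1 - c) := by linarith [hcs]
    rw [h6] at h5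
    have h7 : (2 * x * y * 2 + 1) * (1 - c) = 0 := by linarith
    rcases mul_eq_zero.mp h7 with h8 | h8
    · linarith
    · linarith
  have e5 : x * x - y * y < 0 := by
    have h8 : (x * x - y * y) * (1 - c) = s / 2 := by rw [e3, e4]; ring
    by_contra hcon
    push Not at hcon
    have := mul_nonneg hcon (by linarith : 0 ≤ 1 - c)
    linarith
  by_contra hcon
  push Not at hcon
  nlinarith

lemma norm_h_upper {t : ℝ} (ht : t ∈ Ioc (0 : ℝ) Real.pi) : ‖h (e t)‖ ≤ Real.exp (-(Real.pi / 2)) := by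
  rw [norm_h]
  apply Real.exp_le_exp.mpr
  have ht' : t ∈ Ioo (0 : ℝ) (2 * Real.pi) := ⟨ht.1, by linarith [ht.2, Real.pi_pos]⟩
  have h1 : (1 - e t).im ≤ 0 := by
    have h2 : (e t).im = Real.sin t := by rw [e, exp_ofReal_mul_I_im]
    rw [sub_im, one_im, h2]
    linarith [Real.sin_nonneg_of_nonneg_of_le_pi ht.1.le ht.2]
  have h3 : arg (1 - e t) ≤ 0 := by
    by_contra hcon
    push Not at hcon
    have h4 := (arg_bounds (re_pos_e ht')).2
    have h5 : 0 < Real.sin (arg (1 - e t)) :=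
      Real.sin_pos_of_pos_of_lt_pi hcon (by linarith [Real.pi_pos])
    have h6 := norm_mul_sin_arg (1 - e t)
    have h7 : 0 < ‖1 - e t‖ := norm_pos_iff.mpr (ne_zero_of_re (re_pos_e ht'))
    nlinarith [mul_pos h7 h5]
  linarith

/-- the bounded approximations of `V` -/
noncomputable def W (l : ℝ) (z : ℂ) : ℂ := -I * l * V z / (V z - I * l)

lemma W_facts {z : ℂ} (hz : 0 < (1 - z).re) {l : ℝ} (hl : 0 < l) :
    V z - I * l ≠ 0 ∧ ‖W l z‖ ≤ l ∧ (W l z).re ≤ (V z).re := by
  obtain ⟨ha, hb⟩ := V_quadrant hz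
  set x := (V z).re with hx
  set y := (V z).im with hy
  have hne : V z - I * l ≠ 0 := by
    intro h
    have := congrArg Complex.re h
    simp only [sub_re, mul_re, I_re, I_im, ofReal_re, ofReal_im, zero_re] at this
    linarith
  have hVeq : V z = ⟨x, y⟩ := by rw [hx, hy]
  have hn : normSq (V z - I * l) = x ^ 2 + (y - l) ^ 2 := by
    rw [normSq_apply]
    simp only [sub_re, sub_im, mul_re, mul_im, I_re, I_im, ofReal_re, ofReal_im, ← hx, ← hy]
    ring
  have hpos : 0 < normSq (V z - I * l) := normSq_pos.mpr hne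
  refine ⟨hne, ?_, ?_⟩
  · have h1 : ‖V z‖ ≤ ‖V z - I * l‖ := by
      have h2 : ‖V z‖ ^ 2 ≤ ‖V z - I * l‖ ^ 2 := by
        rw [← normSq_eq_norm_sq, ← normSq_eq_norm_sq, hn, normSq_apply, ← hx, ← hy]
        nlinarith
      exact (abs_le_of_sq_le_sq' h2 (norm_nonneg _)).2
    have h3 : 0 < ‖V z - I * l‖ := norm_pos_iff.mpr hne
    rw [W, norm_div, norm_mul, norm_mul, norm_neg, norm_I, one_mul, norm_real,
      Real.norm_of_nonneg hl.le, div_le_iff₀ h3]
    gcongr
  · have h1 : V z - W l z = V z ^ 2 / (V z - I * l) := by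
      rw [W]; field_simp; ring
    have h2 : 0 ≤ (V z - W l z).re := by
      rw [h1, div_re, ← add_div]
      apply div_nonneg _ hpos.le
      simp only [pow_two, mul_re, mul_im, sub_re, sub_im, I_re, I_im, ofReal_re, ofReal_im,
        ← hx, ← hy]
      have h3 : (x * x - y * y) * (x - (0 * l - 1 * 0)) + (x * y + y * x) * (y - (0 * 0 + 1 * l))
        = x * (x ^ 2 + y ^ 2) + 2 * l * (x * (-y)) := by ring
      rw [h3]
      have h4 : 0 ≤ x * (-y) := mul_nonneg ha.le (by linarith)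
      positivity
    rw [sub_re] at h2
    linarith

/-- A function of `H^∞` dominated by `C |θ|` on the circle is dominated by `C |Θ|` inside. -/
lemma outer_bound {G : ℂ → ℂ} {g : ℝ → ℂ} (hG : IsBdry G g) {C : ℝ} (hC : 0 ≤ C)
    (hg : ∀ᵐ t ∂m, ‖g t‖ ≤ C * ‖θ t‖) {z : ℂ} (hz : z ∈ Metric.ball (0 : ℂ) 1) :
    ‖G z‖ * Real.exp (V z).re ≤ C := by
  obtain ⟨hd, ⟨B, hB⟩, hlim⟩ := hG
  have key : ∀ l : ℝ, 0 < l → ‖G z‖ * Real.exp (W l z).re ≤ C := by
    intro l hl
    have hWd : ∀ z, 0 < (1 - z).re → DifferentiableAt ℂ (W l) z := by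
      intro z hz
      have h1 := diff_V hz
      have h2 := (W_facts hz hl).1
      unfold W
      exact DifferentiableAt.div (h1.const_mul _) (h1.sub_const _) h2
    have hb : IsBdry (fun z => G z * exp (W l z)) (fun t => g t * exp (W l (e t))) := by
      refine ⟨?_, ⟨B * Real.exp l, fun z hz => ?_⟩, ?_⟩
      · exact hd.mul fun z hz => ((hWd z (re_pos hz)).cexp).differentiableWithinAt
      · rw [norm_mul, norm_exp]
        have h1 := (W_facts (re_pos hz) hl).2.1
        have h2 := (re_le_norm (W l z)).trans h1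
        have h3 := hB z hz
        exact mul_le_mul h3 (Real.exp_le_exp.mpr h2) (Real.exp_pos _).le
          ((norm_nonneg _).trans h3)
      · have h1 := radial (G := fun z => exp (W l z)) fun z hz => (hWd z hz).cexp.continuousAt
        filter_upwards [hlim, h1] with t h2 h3
        exact h2.mul h3
    have h1 := max_principle hb hC (by
      filter_upwards [hg, ae_mem] with t h1 h2
      have h3 := (W_facts (re_pos_e h2) hl).2.2
      rw [norm_mul, norm_exp]
      rw [θ, norm_exp, neg_re] at h1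
      calc ‖g t‖ * Real.exp (W l (e t)).re
          ≤ (C * Real.exp (-(V (e t)).re)) * Real.exp (V (e t)).re := by gcongr
        _ = C := by rw [mul_assoc, ← Real.exp_add]; simp) hz
    rw [norm_mul, norm_exp] at h1
    exact h1
  -- let `l → ∞`
  have hW : Tendsto (fun n : ℕ => W ((n : ℝ) + 1) z) atTop (𝓝 (V z)) := by
    have h1 : ∀ n : ℕ, W ((n : ℝ) + 1) z =
        -I * V z / (V z * ((1 / ((n : ℝ) + 1) : ℝ) : ℂ) - I) := by
      intro n
      have h2 : ((((n : ℝ) + 1 : ℝ)) : ℂ) ≠ 0 := by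
        have : ((n : ℝ) + 1) ≠ 0 := by positivity
        exact_mod_cast this
      have h3 := (W_facts (re_pos hz) (l := (n : ℝ) + 1) (by positivity)).1
      have h4 : V z * ((1 / ((n : ℝ) + 1) : ℝ) : ℂ) - I ≠ 0 := by
        intro h
        apply h3
        have h5 : V z - I * (((n : ℝ) + 1 : ℝ) : ℂ) =
          (V z * ((1 / ((n : ℝ) + 1) : ℝ) : ℂ) - I) * (((n : ℝ) + 1 : ℝ) : ℂ) := by
          rw [ofReal_div, ofReal_one]
          field_simp
        rw [h5, h, zero_mul]
      rw [W, div_eq_div_iff h3 h4, ofReal_div, ofReal_one]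
      field_simp
    have h2 : Tendsto (fun n : ℕ => ((1 / ((n : ℝ) + 1) : ℝ) : ℂ)) atTop (𝓝 0) := by
      have := (continuous_ofReal.tendsto 0).comp tendsto_one_div_add_atTop_nhds_zero_nat
      rw [ofReal_zero] at this
      exact this
    have h3 : Tendsto (fun n : ℕ => -I * V z / (V z * ((1 / ((n : ℝ) + 1) : ℝ) : ℂ) - I)) atTop
        (𝓝 (-I * V z / (V z * 0 - I))) := by
      apply Tendsto.div tendsto_const_nhds
      · exact (h2.const_mul _).sub_const _
      · simp
    have h4 : -I * V z / (V z * 0 - I) = V z := by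
      rw [mul_zero, zero_sub, neg_mul, neg_div_neg_eq, mul_div_assoc, mul_comm,
        div_mul_cancel₀ _ I_ne_zero]
    rw [h4] at h3
    exact h3.congr fun n => (h1 n).symm
  have hlim2 : Tendsto (fun n : ℕ => ‖G z‖ * Real.exp (W ((n : ℝ) + 1) z).re) atTop
      (𝓝 (‖G z‖ * Real.exp (V z).re)) := by
    apply Tendsto.const_mul
    exact (Real.continuous_exp.tendsto _).comp ((continuous_re.tendsto _).comp hW)
  exact le_of_tendsto' hlim2 fun n => key _ (by positivity)

/-! ### The approach points -/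

noncomputable def δ (n : ℕ) : ℝ := Real.exp (-(Real.pi / 2 * n))

noncomputable def w (n : ℕ) : ℂ := exp (-(2 * Real.pi * n) + (Real.pi / 2 - δ n) * I)

lemma δ_pos (n : ℕ) : 0 < δ n := Real.exp_pos _

lemma δ_le (n : ℕ) : δ n ≤ 1 := Real.exp_le_one_iff.mpr (by
  have := Real.pi_pos; have : (0 : ℝ) ≤ n := Nat.cast_nonneg n
  nlinarith)

lemma log_w (n : ℕ) : log (w n) = -(2 * Real.pi * n) + (Real.pi / 2 - δ n) * I := by
  have hpi := Real.pi_gt_three
  have hpi' := Real.pi_pos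
  have h1 := δ_pos n
  have h2 := δ_le n
  have him : ((-(2 * Real.pi * n) + (Real.pi / 2 - δ n) * I : ℂ)).im = Real.pi / 2 - δ n := by
    have : (-(2 * Real.pi * n) + (Real.pi / 2 - δ n) * I : ℂ) =
        ((-(2 * Real.pi * n) : ℝ) : ℂ) + ((Real.pi / 2 - δ n : ℝ) : ℂ) * I := by push_cast; ring
    rw [this]; simp
  rw [w, log_exp]
  · rw [him]; linarith
  · rw [him]; linarith

lemma w_form (n : ℕ) : w n = ((Real.exp (-(2 * Real.pi * n)) : ℝ) : ℂ) *
    (Real.sin (δ n) + Real.cos (δ n) * I) := by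
  rw [w, exp_add]
  have h1 : exp (-(2 * Real.pi * n) : ℂ) = ((Real.exp (-(2 * Real.pi * n)) : ℝ) : ℂ) := by
    rw [ofReal_exp]; push_cast; rfl
  have h2 : exp ((Real.pi / 2 - δ n : ℂ) * I) = Real.sin (δ n) + Real.cos (δ n) * I := by
    have h3 : (Real.pi / 2 - δ n : ℂ) = ((Real.pi / 2 - δ n : ℝ) : ℂ) := by push_cast; rfl
    rw [h3, exp_mul_I, ← ofReal_cos, ← ofReal_sin, Real.cos_pi_div_two_sub,
      Real.sin_pi_div_two_sub]
  rw [h1, h2]

lemma z_mem (n : ℕ) : 1 - w n ∈ Metric.ball (0 : ℂ) 1 := by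
  rw [mem_ball_zero_iff]
  set r := Real.exp (-(2 * Real.pi * n)) with hr
  have hr0 : 0 < r := Real.exp_pos _
  have h1 := δ_pos n
  have h2 := δ_le n
  have hpi := Real.pi_gt_three
  have hpi4 := Real.pi_lt_d2
  have hrδ : r ≤ δ n := by
    rw [hr, δ]
    apply Real.exp_le_exp.mpr
    have : (0 : ℝ) ≤ n := Nat.cast_nonneg n
    nlinarith
  have hsin : 2 / Real.pi * δ n ≤ Real.sin (δ n) :=
    Real.mul_le_sin h1.le (by linarith)
  have hsin2 : δ n < 2 * Real.sin (δ n) := by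
    have : δ n / 2 < 2 / Real.pi * δ n := by
      rw [div_mul_eq_mul_div, div_lt_div_iff₀ (by norm_num) Real.pi_pos]
      nlinarith
    linarith
  have h3 : normSq (1 - w n) = 1 - 2 * r * Real.sin (δ n) + r ^ 2 := by
    rw [w_form, normSq_apply]
    have hcs := Real.sin_sq_add_cos_sq (δ n)
    simp only [sub_re, sub_im, one_re, one_im, mul_re, mul_im, add_re, add_im, ofReal_re,
      ofReal_im, I_re, I_im, ← hr]
    have : r ^ 2 = r ^ 2 * (Real.sin (δ n) ^ 2 + Real.cos (δ n) ^ 2) := by rw [hcs, mul_one]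
    rw [this]
    ring
  have h4 : normSq (1 - w n) < 1 := by
    rw [h3]
    have : r * r < r * (2 * Real.sin (δ n)) := by
      apply mul_lt_mul_of_pos_left _ hr0
      linarith
    nlinarith
  rw [normSq_eq_norm_sq] at h4
  nlinarith [norm_nonneg (1 - w n)]

lemma h_z (n : ℕ) : h (1 - w n) = ((Real.exp (-δ n) : ℝ) : ℂ) := by
  rw [h, sub_sub_cancel, log_w]
  have : -I * (-(2 * Real.pi * n) + (Real.pi / 2 - δ n) * I) - Real.pi / 2 =
      ((-δ n : ℝ) : ℂ) + n * (2 * Real.pi * I) := by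
    push_cast
    linear_combination (-(Real.pi / 2 - (δ n : ℂ))) * I_sq
  rw [this, exp_add, exp_nat_mul_two_pi_mul_I, mul_one, ofReal_exp]

lemma re_V_z (n : ℕ) : Real.exp (Real.pi / 2 * n) / Real.pi ≤ (V (1 - w n)).re := by
  have h0 : V (1 - w n) = ((Real.exp (Real.pi * n) : ℝ) : ℂ) *
      exp (((-(Real.pi / 2 - δ n / 2) : ℝ) : ℂ) * I) := by
    rw [V, sub_sub_cancel, log_w, ofReal_exp, ← exp_add]
    congr 1
    push_cast
    ring
  have h1 : (V (1 - w n)).re = Real.exp (Real.pi * n) * Real.sin (δ n / 2) := by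
    rw [h0, re_ofReal_mul, exp_ofReal_mul_I_re, Real.cos_neg, Real.cos_pi_div_two_sub]
  have h2 := δ_pos n
  have h3 := δ_le n
  have hpi := Real.pi_gt_three
  have hsin : 2 / Real.pi * (δ n / 2) ≤ Real.sin (δ n / 2) :=
    Real.mul_le_sin (by linarith) (by linarith)
  rw [h1]
  calc Real.exp (Real.pi / 2 * n) / Real.pi
      = Real.exp (Real.pi * n) * (2 / Real.pi * (δ n / 2)) := by
        have : Real.exp (Real.pi / 2 * n) = Real.exp (Real.pi * n) * δ n := by
          rw [δ, ← Real.exp_add]; congr 1; ring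
        rw [this]; ring
    _ ≤ _ := by gcongr

lemma tendsto_δ : Tendsto δ atTop (𝓝 0) := by
  unfold δ
  apply Real.tendsto_exp_neg_atTop_nhds_zero.comp
  exact Tendsto.const_mul_atTop (by positivity) tendsto_natCast_atTop_atTop

lemma tendsto_re : Tendsto (fun n : ℕ => (V (1 - w n)).re) atTop atTop := by
  apply tendsto_atTop_mono re_V_z
  apply Tendsto.atTop_div_const Real.pi_pos
  apply Real.tendsto_exp_atTop.comp
  exact Tendsto.const_mul_atTop (by positivity) tendsto_natCast_atTop_atTop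

/-! ### The counterexample -/

/-- the element of the algebra -/
noncomputable def f (t : ℝ) : ℂ := if t ≤ Real.pi then h (e t) else 0

lemma f_mem : f ∈ HL θ := by
  refine ⟨hb, ⟨h, bdry_h⟩, fun t => if t ≤ Real.pi then 0 else -(h (e t) * exp (V (e t))), ?_, ?_⟩
  · change MemLp _ ∞ m
    have hm : Measurable fun t => if t ≤ Real.pi then (0 : ℂ) else -(h (e t) * exp (V (e t))) := by
      apply Measurable.ite measurableSet_Iic measurable_const
      have h1 := meas_h.comp continuous_e.measurable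
      have h2 := meas_V.comp continuous_e.measurable
      exact (h1.mul (measurable_exp.comp h2)).neg
    apply memLp_top_of_bound hm.aestronglyMeasurable (Real.exp (1 / 2))
    filter_upwards [ae_mem] with t ht
    split_ifs with hle
    · simp [Real.exp_nonneg]
    · push Not at hle
      rw [norm_neg, norm_mul, norm_exp]
      have h1 := norm_h_le (re_pos_e ht)
      have h2 := re_V_le ⟨hle, ht.2⟩
      calc ‖h (e t)‖ * Real.exp (V (e t)).re ≤ 1 * Real.exp (1 / 2) := by gcongr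
        _ = _ := one_mul _
  · refine Filter.Eventually.of_forall fun t => ?_
    change (if t ≤ Real.pi then h (e t) else 0) =
      hb t + θ t * (if t ≤ Real.pi then 0 else -(h (e t) * exp (V (e t))))
    split_ifs with hle
    · simp [hb]
    · have : exp (-V (e t)) * exp (V (e t)) = 1 := by rw [← exp_add]; simp
      rw [hb, θ]
      linear_combination (h (e t)) * this

lemma f_norm : eLpNorm f ∞ m < 1 := by
  have h1 : eLpNorm f ∞ m ≤ ENNReal.ofReal (Real.exp (-(Real.pi / 2))) := by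
    rw [eLpNorm_exponent_top]
    apply eLpNormEssSup_le_of_ae_bound
    filter_upwards [ae_mem] with t ht
    rw [f]
    split_ifs with hle
    · exact norm_h_upper ⟨ht.1, hle⟩
    · simp [Real.exp_nonneg]
  refine h1.trans_lt ?_
  rw [ENNReal.ofReal_lt_one]
  exact Real.exp_lt_one_iff.mpr (by linarith [Real.pi_pos])

lemma f_not_mem : (fun t => 1 / (1 - f t)) ∉ HL θ := by
  rintro ⟨k, ⟨K, hKd, ⟨B, hB⟩, hKlim⟩, g, hg, heq⟩
  have hg' : MemLp g ∞ m := hg
  -- the analytic function `1 - K (1 - h)`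
  have hB0 : 0 ≤ B := (norm_nonneg _).trans (hB 0 (Metric.mem_ball_self one_pos))
  have hkB : ∀ᵐ t ∂m, ‖k t‖ ≤ B := by
    filter_upwards [hKlim] with t ht
    apply le_of_tendsto ht.norm
    have hev : ∀ᶠ r : ℝ in 𝓝[<] 1, r ∈ Ioo (0 : ℝ) 1 := Ioo_mem_nhdsLT one_pos
    filter_upwards [hev] with r hr
    apply hB
    rw [mem_ball_zero_iff, norm_mul, norm_e, norm_real, mul_one, Real.norm_of_nonneg hr.1.le]
    exact hr.2
  obtain ⟨A, hA0, hA⟩ : ∃ A : ℝ, 0 ≤ A ∧ ∀ᵐ t ∂m, ‖g t‖ ≤ A := by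
    refine ⟨(eLpNormEssSup g m).toReal, ENNReal.toReal_nonneg, ?_⟩
    have hfin : eLpNormEssSup g m < ∞ := by
      have := hg'.2
      rwa [eLpNorm_exponent_top] at this
    filter_upwards [ae_le_eLpNormEssSup (f := g) (μ := m)] with t ht
    have := ENNReal.toReal_mono hfin.ne ht
    simpa using this
  have hG : IsBdry (fun z => 1 - K z * (1 - h z)) (fun t => 1 - k t * (1 - hb t)) := by
    refine ⟨?_, ⟨1 + B * 2, fun z hz => ?_⟩, ?_⟩
    · exact (differentiableOn_const 1).sub (hKd.mul ((differentiableOn_const 1).sub bdry_h.1))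
    · have h1 : ‖1 - K z * (1 - h z)‖ ≤ ‖(1 : ℂ)‖ + ‖K z * (1 - h z)‖ := norm_sub_le _ _
      have h2 : ‖1 - h z‖ ≤ ‖(1 : ℂ)‖ + ‖h z‖ := norm_sub_le _ _
      rw [norm_one] at h1 h2
      rw [norm_mul] at h1
      have h3 := norm_h_le (re_pos hz)
      have h4 := mul_le_mul (hB z hz) (h2.trans (by linarith : 1 + ‖h z‖ ≤ 2))
        (norm_nonneg _) hB0
      linarith
    · filter_upwards [hKlim, bdry_h.2.2] with t h1 h2
      exact (h1.mul (h2.const_sub 1)).const_sub 1
  set C : ℝ := max (2 * A) ((1 + 2 * B) * Real.exp (1 / 2)) with hC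
  have hC0 : 0 ≤ C := le_max_of_le_left (by positivity)
  have hbound : ∀ᵐ t ∂m, ‖1 - k t * (1 - hb t)‖ ≤ C * ‖θ t‖ := by
    filter_upwards [ae_mem, heq, hkB, hA] with t ht h1 h2 h3
    have hh := norm_h_le (re_pos_e ht)
    have h4 : ‖1 - hb t‖ ≤ 2 := by
      have : ‖1 - hb t‖ ≤ ‖(1 : ℂ)‖ + ‖hb t‖ := norm_sub_le _ _
      rw [norm_one] at this
      change ‖hb t‖ ≤ 1 at hh
      linarith
    by_cases hle : t ≤ Real.pi
    · have h5 : f t = hb t := by rw [f, if_pos hle]; rfl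
      have h6 : 1 - hb t ≠ 0 := by
        intro h0
        have h7 : hb t = 1 := (sub_eq_zero.mp h0).symm
        have h8 := norm_h_upper ⟨ht.1, hle⟩
        change ‖hb t‖ ≤ _ at h8
        rw [h7, norm_one] at h8
        have : Real.exp (-(Real.pi / 2)) < 1 := Real.exp_lt_one_iff.mpr (by linarith [Real.pi_pos])
        linarith
      simp only [h5] at h1
      have h7 : 1 - k t * (1 - hb t) = θ t * g t * (1 - hb t) := by
        have : 1 = (k t + θ t * g t) * (1 - hb t) := by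
          rw [← h1, one_div, inv_mul_cancel₀ h6]
        linear_combination this
      rw [h7, norm_mul, norm_mul]
      calc ‖θ t‖ * ‖g t‖ * ‖1 - hb t‖ ≤ ‖θ t‖ * A * 2 := by gcongr
        _ = 2 * A * ‖θ t‖ := by ring
        _ ≤ C * ‖θ t‖ := by gcongr; exact le_max_left _ _
    · push Not at hle
      have h5 := re_V_le ⟨hle, ht.2⟩
      have h6 : Real.exp (-(1 / 2)) ≤ ‖θ t‖ := by
        rw [θ, norm_exp, neg_re]
        exact Real.exp_le_exp.mpr (by linarith)
      have h7 : ‖1 - k t * (1 - hb t)‖ ≤ 1 + 2 * B := by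
        have h8 : ‖1 - k t * (1 - hb t)‖ ≤ ‖(1 : ℂ)‖ + ‖k t * (1 - hb t)‖ := norm_sub_le _ _
        rw [norm_one, norm_mul] at h8
        have h9 := mul_le_mul h2 h4 (norm_nonneg _) hB0
        linarith
      calc ‖1 - k t * (1 - hb t)‖ ≤ 1 + 2 * B := h7
        _ = ((1 + 2 * B) * Real.exp (1 / 2)) * Real.exp (-(1 / 2)) := by
          rw [mul_assoc, ← Real.exp_add]; simp
        _ ≤ C * ‖θ t‖ := by
          apply mul_le_mul (le_max_right _ _) h6 (Real.exp_pos _).le hC0
  have hfin : ∀ n, ‖1 - K (1 - w n) * (1 - h (1 - w n))‖ * Real.exp (V (1 - w n)).re ≤ C :=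
    fun n => outer_bound hG hC0 hbound (z_mem n)
  -- the first factor tends to `1`
  have h1 : Tendsto (fun n => 1 - h (1 - w n)) atTop (𝓝 0) := by
    simp only [h_z]
    have h2 : Tendsto (fun n => ((Real.exp (-δ n) : ℝ) : ℂ)) atTop (𝓝 ((Real.exp (-0) : ℝ) : ℂ)) :=
      (continuous_ofReal.tendsto _).comp ((Real.continuous_exp.tendsto _).comp tendsto_δ.neg)
    have h3 := h2.const_sub 1
    simpa using h3
  have h2 : Tendsto (fun n => ‖1 - K (1 - w n) * (1 - h (1 - w n))‖) atTop (𝓝 1) := by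
    have h3 : Tendsto (fun n => K (1 - w n) * (1 - h (1 - w n))) atTop (𝓝 0) := by
      apply squeeze_zero_norm (a := fun n => B * ‖1 - h (1 - w n)‖)
      · intro n
        rw [norm_mul]
        exact mul_le_mul_of_nonneg_right (hB _ (z_mem n)) (norm_nonneg _)
      · have := h1.norm.const_mul B
        simpa using this
    have h4 := (h3.const_sub 1).norm
    simpa using h4
  have h3 : Tendsto (fun n => ‖1 - K (1 - w n) * (1 - h (1 - w n))‖ *
      Real.exp (V (1 - w n)).re) atTop atTop :=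
    h2.pos_mul_atTop one_pos (Real.tendsto_exp_atTop.comp tendsto_re)
  obtain ⟨n, hn⟩ := (h3.eventually (eventually_gt_atTop C)).exists
  exact absurd (hfin n) (not_le.mpr hn)

/-- **Negative answer**: there is a bounded outer function `θ` for which `H^∞ + θ L^∞` is not a
generalized Douglas algebra. -/
theorem result : ∃ θ : ℝ → ℂ, IsOuter θ ∧ ¬ IsGD (HL θ) :=
  ⟨θ, isOuter_θ, fun hGD => f_not_mem (hGD f f_mem f_norm)⟩

end Pool.Agent.Results.MP_c4e2dd_an.NotGD
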